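import Pool.Agent.H757_X15.StmD
import Pool.Agent.Y949.CQ.BAD

/-! X15-D11: few sets have degenerate labels (adapted from `Pool.Agent.Y949.CQ.BAD`). -/

set_option autoImplicit false
set_option linter.unusedVariables false

open scoped Classical

namespace Pool.Agent.H757_X15.DD

open Finset
open Pool.Agent.Y703.CX (sm la jj XX eL zz kk S_SIE)
open Pool.Agent.Y703.CQ (nr sg prs HB ext S_EQ)
open Pool.Agent.Y37.CX (Pm Pm_nonneg Pm_mono Pm_le)
open Pool.Agent.Y949.CQ (prod_pos_of prod_sub_le sub_range)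

namespace Bad

/-- the primes of the class are at least `7` -/
lemma cl_seven {S : Finset ℕ} (hS : Cl S) : ∀ p ∈ S, 7 ≤ p := by
  intro p hp
  obtain ⟨h1, h2⟩ := hS
  have hd : p ∣ ∏ q ∈ S, q := Finset.dvd_prod_of_mem (fun q => q) hp
  have hpp := (h1 p hp).1
  have hp2 := (h1 p hp).2
  by_contra hlt
  have hlt' : p < 7 := by omega
  unfold Fm at h2
  generalize hN : ∏ q ∈ S, q = N at hd h2
  interval_cases p
  · exact absurd hpp (by decide)
  · exact absurd hpp (by decide)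
  · exact hp2 rfl
  · omega
  · exact absurd hpp (by decide)
  · omega
  · exact absurd hpp (by decide)

lemma notNd {S T : Finset ℕ} (h : ¬ Nd S T) :
    ∃ (W : Finset ℕ) (t s : ZMod 2), W ⊆ S ∧ (W.Nonempty ∨ t ≠ 0 ∨ s ≠ 0) ∧
      ∀ p ∈ T, ∑ u ∈ W, nr p u + t * aa p + s * bb p = 0 := by
  unfold Nd at h
  push Not at h
  obtain ⟨w, t, s, hw, h2⟩ := h
  refine ⟨S.filter fun u => w u ≠ 0, t, s, filter_subset _ _, ?_, ?_⟩
  · rcases hw with ⟨u, hu, hw⟩ | hw
    · exact Or.inl ⟨u, mem_filter.2 ⟨hu, hw⟩⟩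
    · exact Or.inr hw
  · intro p hp
    refine Eq.trans ?_ (h2 p hp)
    congr 2
    rw [sum_filter]
    refine sum_congr rfl fun u _ => ?_
    have key : ∀ a : ZMod 2, a = 0 ∨ a = 1 := by decide
    rcases key (w u) with h | h
    · rw [h]
      simp
    · rw [h]
      simp

/-- the size of the family -/
lemma fam_card {C₁ C₂ : ℝ} (h11 : 1 ≤ C₁)
    (hSIE : ∀ (Y : ℕ) (L : Finset (Finset ℕ)), 1 ≤ Y →
      (∀ S ∈ L, (∀ p ∈ S, p.Prime) ∧ ∏ p ∈ S, p ≤ Y) → (∀ S ∈ L, ∀ T, T ⊆ S → T ∈ L) →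
      (L.card : ℝ) * Real.log Y ≤ C₁ * Y * ∑ S ∈ L, (1 : ℝ) / ((∏ p ∈ S, p : ℕ) : ℝ))
    (hHAL : ∀ (W : Finset ℕ) (t s : ZMod 2) (T : ℕ), (W.Nonempty ∨ t ≠ 0 ∨ s ≠ 0) →
      (∀ u ∈ W, u.Prime ∧ 7 ≤ u) → 2 ≤ T →
      ∑ S ∈ HD W t s T, (1 : ℝ) / ((∏ p ∈ S, p : ℕ) : ℝ) ≤
        C₂ * (Real.log ((20 * ∏ u ∈ W, u : ℕ) : ℝ)) ^ (1 / 2 : ℝ) * (Real.log T) ^ (1 / 2 : ℝ))
    {W : Finset ℕ} {t s : ZMod 2} (hW : W.Nonempty ∨ t ≠ 0 ∨ s ≠ 0)
    (hW1 : ∀ u ∈ W, u.Prime ∧ 7 ≤ u) {Y : ℕ} (hY : 2 ≤ Y) :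
    ((HD W t s Y).card : ℝ) * Real.log Y ≤ C₁ * Y *
      (C₂ * (Real.log ((20 * ∏ u ∈ W, u : ℕ) : ℝ)) ^ (1 / 2 : ℝ) *
        (Real.log Y) ^ (1 / 2 : ℝ)) := by
  have h1 := hSIE Y (HD W t s Y) (by omega) (by
    intro S hS
    rw [HD, mem_filter] at hS
    exact ⟨fun p hp => (hS.2.1 p hp).1, hS.2.2⟩) (by
    intro S hS T hTS
    rw [HD, mem_filter, mem_powerset] at hS ⊢
    obtain ⟨h1, h2, h3⟩ := hS
    refine ⟨hTS.trans h1, fun p hp => h2 p (hTS hp), ?_⟩
    exact (prod_sub_le hTS fun p hp => (h2 p hp).1).trans h3)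
  exact h1.trans (mul_le_mul_of_nonneg_left (hHAL W t s Y hW hW1 hY) (by positivity))

/-- the number of sets with given small part -/
lemma fiber (X z : ℕ) {S₀ : Finset ℕ} (hS₀ : ∀ u ∈ S₀, u.Prime) :
    ((SS X).filter fun S => ¬ Nd (sm z S) (la z S) ∧ sm z S = S₀).card ≤
      ∑ W ∈ S₀.powerset ×ˢ (univ : Finset (ZMod 2 × ZMod 2)),
        if (W.1.Nonempty ∨ W.2.1 ≠ 0 ∨ W.2.2 ≠ 0) ∧ (∀ u ∈ W.1, u.Prime ∧ 7 ≤ u) then
        (HD W.1 W.2.1 W.2.2 (X / ∏ p ∈ S₀, p)).card else 0 := by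
  rw [← sum_filter]
  refine le_trans ?_ Finset.card_biUnion_le
  apply Finset.card_le_card_of_injOn (fun S => la z S)
  · intro S hS
    rw [mem_coe, mem_filter, SS, mem_filter, mem_powerset] at hS
    obtain ⟨⟨h1, hcl, h4⟩, h5, h6⟩ := hS
    have hpr : ∀ p ∈ S, p.Prime := fun p hp => (hcl.1 p hp).1
    obtain ⟨W, t, s, hWS, hWn, h7⟩ := notNd h5
    rw [h6] at hWS
    rw [mem_coe, mem_biUnion]
    refine ⟨(W, t, s), ?_, ?_⟩
    · rw [mem_filter, mem_product, mem_powerset]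
      refine ⟨⟨hWS, mem_univ _⟩, hWn, fun u hu => ⟨hS₀ u (hWS hu), ?_⟩⟩
      have hu' : u ∈ sm z S := by rw [h6]; exact hWS hu
      exact cl_seven hcl u (mem_filter.1 hu').1
    · rw [HD, mem_filter, mem_powerset]
      have hN : 0 < ∏ p ∈ S₀, p := prod_pos_of fun p hp => hS₀ p hp
      have hprod : ∏ p ∈ la z S, p ≤ X / ∏ p ∈ S₀, p := by
        rw [Nat.le_div_iff_mul_le hN, mul_comm, ← h6]
        have : (∏ p ∈ sm z S, p) * ∏ p ∈ la z S, p = ∏ p ∈ S, p :=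
          prod_filter_mul_prod_filter_not _ _ _
        rw [this]
        exact h4
      refine ⟨sub_range (fun p hp => hpr p (mem_filter.1 hp).1) hprod, ?_, hprod⟩
      intro p hp
      refine ⟨hpr p (mem_filter.1 hp).1, (hcl.1 p (mem_filter.1 hp).1).2, fun hpW => ?_, h7 p hp⟩
      have h8 := hWS hpW
      rw [← h6, sm, mem_filter] at h8
      exact (mem_filter.1 hp).2 h8.2
  · intro S hS T hT h
    rw [mem_coe, mem_filter] at hS hT
    simp only at h
    have key : ∀ S : Finset ℕ, sm z S ∪ la z S = S := fun S => filter_union_filter_not_eq _ _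
    rw [← key S, ← key T, hS.2.2, hT.2.2, h]

end Bad

open Bad

theorem t_BAD : S_BAD := by
  intro hSIE hHAL
  obtain ⟨C₁, h11, h1⟩ := hSIE
  obtain ⟨C₂, h21, h2⟩ := hHAL
  obtain ⟨C₃, h30, h3⟩ := Pm_le
  obtain ⟨X₀, hX₀⟩ := Pool.Agent.Y949.CQ.params
  have hC2 : 0 ≤ C₂ := by linarith
  have hC1 : 0 ≤ C₁ := by linarith
  refine ⟨144 * C₁ * C₂ * Real.exp (2 * C₃), X₀, fun X hX => ?_⟩
  obtain ⟨hX3, hl2, hlog1, h33, hfin⟩ := hX₀ X hX
  set ℓ : ℝ := Real.log (Real.log X) with hℓ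
  set z : ℕ := zz X with hz
  set k : ℕ := kk X with hk
  have hlX : 0 < Real.log X := by linarith
  have hl0 : 0 < ℓ := by linarith
  have hk11 : (k : ℝ) ≤ 11 * ℓ := by
    have h := Nat.ceil_lt_add_one (show (0 : ℝ) ≤ 10 * eL X by
      unfold eL; rw [← hℓ]; positivity)
    have h' : (k : ℝ) < 10 * ℓ + 1 := h
    linarith
  have hl3 : (8 : ℝ) ≤ ℓ ^ 3 := by
    have := pow_le_pow_left₀ (by norm_num : (0 : ℝ) ≤ 2) hl2 3
    linarith
  have hz3 : 3 ≤ z := by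
    rw [hz]
    unfold zz
    apply Nat.le_floor
    have h := Real.add_one_le_exp ((eL X) ^ 3)
    have h' : (eL X) ^ 3 = ℓ ^ 3 := rfl
    rw [h'] at h ⊢
    push_cast
    linarith
  have hz1 : 1 ≤ z := by omega
  have hz0 : (0 : ℝ) < z := by exact_mod_cast hz1
  have hzlog : Real.log z ≤ ℓ ^ 3 := by
    rw [Real.log_le_iff_le_exp hz0]
    exact Nat.floor_le (Real.exp_pos _).le
  have hzlog0 : 0 < Real.log z := Real.log_pos (by exact_mod_cast (by omega : 1 < z))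
  have hl4 : (16 : ℝ) ≤ ℓ ^ 4 := by
    have := pow_le_pow_left₀ (by norm_num : (0 : ℝ) ≤ 2) hl2 4
    linarith
  -- the size of the families
  set R : ℝ := 36 * C₁ * C₂ * ℓ ^ 4 * (Real.log X) ^ (1 / 2 : ℝ) / Real.log X with hR
  have hrp0 : 0 < (Real.log X) ^ (1 / 2 : ℝ) := Real.rpow_pos_of_pos hlX _
  have hR0 : 0 ≤ R := by
    rw [hR]
    positivity
  have key : ∀ S₀ : Finset ℕ, (∀ u ∈ S₀, u.Prime) → (∀ u ∈ S₀, u ≤ z) → S₀.card ≤ k →
      ∀ W ⊆ S₀, ∀ t s : ZMod 2, (W.Nonempty ∨ t ≠ 0 ∨ s ≠ 0) → (∀ u ∈ W, u.Prime ∧ 7 ≤ u) →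
      ((HD W t s (X / ∏ p ∈ S₀, p)).card : ℝ) ≤ (X : ℝ) / ((∏ p ∈ S₀, p : ℕ) : ℝ) * R := by
    intro S₀ hS₀ hSz hSk W hWS t s hWn hW1
    set N : ℕ := ∏ p ∈ S₀, p with hN
    have hN0 : 0 < N := prod_pos_of fun p hp => hS₀ p hp
    have hN0' : (0 : ℝ) < N := by exact_mod_cast hN0
    have hlN : Real.log N ≤ 11 * ℓ ^ 4 := by
      have e1 : Real.log N = ∑ p ∈ S₀, Real.log p := by
        rw [hN]
        push_cast
        rw [Real.log_prod]
        intro p hp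
        have := (hS₀ p hp).ne_zero
        exact_mod_cast this
      rw [e1]
      calc ∑ p ∈ S₀, Real.log p ≤ ∑ _p ∈ S₀, Real.log z := by
            refine sum_le_sum fun p hp => ?_
            exact Real.log_le_log (by exact_mod_cast (hS₀ p hp).pos) (by exact_mod_cast hSz p hp)
        _ = S₀.card * Real.log z := by rw [sum_const, nsmul_eq_mul]
        _ ≤ (11 * ℓ) * ℓ ^ 3 := by
            refine mul_le_mul (le_trans (by exact_mod_cast hSk) hk11) hzlog hzlog0.le (by positivity)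
        _ = 11 * ℓ ^ 4 := by ring
    set Y : ℕ := X / N with hY
    have hX0 : (0 : ℝ) < X := by exact_mod_cast (by omega : 0 < X)
    have hYle : (Y : ℝ) ≤ (X : ℝ) / N := Nat.cast_div_le
    have hYge : Real.exp (Real.log X / 3) ≤ Y := by
      have e1 : (X : ℝ) / N < Y + 1 := by
        rw [div_lt_iff₀ hN0']
        have := Nat.lt_mul_div_succ X hN0
        rw [← hY] at this
        have h' : ((X : ℕ) : ℝ) < ((N * (Y + 1) : ℕ) : ℝ) := by exact_mod_cast this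
        push_cast at h'
        linarith
      have e2 : Real.exp (Real.log X - Real.log N) = (X : ℝ) / N := by
        rw [Real.exp_sub, Real.exp_log hX0, Real.exp_log hN0']
      have e3 : Real.exp (Real.log X / 3 + 1) ≤ (X : ℝ) / N := by
        rw [← e2]
        apply Real.exp_le_exp.2
        linarith
      rw [Real.exp_add] at e3
      have e4 : (2 : ℝ) ≤ Real.exp 1 := by have := Real.exp_one_gt_d9; linarith
      have e5 : (1 : ℝ) ≤ Real.exp (Real.log X / 3) := Real.one_le_exp (by positivity)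
      nlinarith
    have hX16 : (9 : ℝ) ≤ Real.log X / 3 := by linarith
    have hY3 : 3 ≤ Y := by
      have e1 := Real.add_one_le_exp (Real.log X / 3)
      have e2 : (3 : ℝ) ≤ Y := by linarith
      exact_mod_cast e2
    have hY2 : 2 ≤ Y := by omega
    have hY0 : (0 : ℝ) < Y := by exact_mod_cast (by omega : 0 < Y)
    have hlY : Real.log X / 3 ≤ Real.log Y := by
      rw [Real.le_log_iff_exp_le hY0]
      exact hYge
    have hYX : Y ≤ X := Nat.div_le_self _ _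
    have hlYX : Real.log Y ≤ Real.log X := Real.log_le_log hY0 (by exact_mod_cast hYX)
    have hlY0 : 0 < Real.log Y := by linarith
    -- the small factor
    have hlW : (Real.log ((20 * ∏ u ∈ W, u : ℕ) : ℝ)) ^ (1 / 2 : ℝ) ≤ 12 * ℓ ^ 4 := by
      have hWp : ∀ u ∈ W, u.Prime := fun u hu => (hW1 u hu).1
      have e0 : (0 : ℝ) < ((∏ u ∈ W, u : ℕ) : ℝ) := by exact_mod_cast prod_pos_of hWp
      have e20 : Real.log 20 ≤ 4 := by
        rw [Real.log_le_iff_le_exp (by norm_num)]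
        have e4 : (2.7 : ℝ) ≤ Real.exp 1 := by have := Real.exp_one_gt_d9; linarith
        have e5 : Real.exp 4 = Real.exp 1 ^ 4 := by
          rw [← Real.exp_nat_mul]; norm_num
        rw [e5]
        have := pow_le_pow_left₀ (by norm_num : (0 : ℝ) ≤ 2.7) e4 4
        norm_num at this ⊢
        linarith
      have e1 : Real.log ((20 * ∏ u ∈ W, u : ℕ) : ℝ) ≤ 12 * ℓ ^ 4 := by
        rw [Nat.cast_mul, Real.log_mul (by norm_num) e0.ne']
        have h5 : Real.log ((∏ u ∈ W, u : ℕ) : ℝ) ≤ Real.log N := by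
          refine Real.log_le_log e0 ?_
          exact_mod_cast prod_sub_le hWS hS₀
        have h6 : Real.log ((20 : ℕ) : ℝ) ≤ 4 := by exact_mod_cast e20
        linarith
      have e2 : 0 ≤ Real.log ((20 * ∏ u ∈ W, u : ℕ) : ℝ) := Real.log_natCast_nonneg _
      have e3 : (1 : ℝ) ≤ 12 * ℓ ^ 4 := by linarith
      refine (Real.rpow_le_rpow e2 e1 (by norm_num)).trans ?_
      have := Real.rpow_le_rpow_of_exponent_le e3 (show (1 / 2 : ℝ) ≤ 1 by norm_num)
      rwa [Real.rpow_one] at this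
    have hmain := fam_card h11 h1 h2 hWn hW1 hY2
    have hrY : (Real.log Y) ^ (1 / 2 : ℝ) ≤ (Real.log X) ^ (1 / 2 : ℝ) :=
      Real.rpow_le_rpow hlY0.le hlYX (by norm_num)
    have hrY0 : 0 ≤ (Real.log Y) ^ (1 / 2 : ℝ) := Real.rpow_nonneg hlY0.le _
    have hb : C₁ * Y * (C₂ * (Real.log ((20 * ∏ u ∈ W, u : ℕ) : ℝ)) ^ (1 / 2 : ℝ) *
        (Real.log Y) ^ (1 / 2 : ℝ)) ≤
        C₁ * ((X : ℝ) / N) * (C₂ * (12 * ℓ ^ 4) * (Real.log X) ^ (1 / 2 : ℝ)) := by
      gcongr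
    have hc : ((HD W t s Y).card : ℝ) * (Real.log X / 3) ≤
        C₁ * ((X : ℝ) / N) * (C₂ * (12 * ℓ ^ 4) * (Real.log X) ^ (1 / 2 : ℝ)) := by
      refine le_trans ?_ (hmain.trans hb)
      exact mul_le_mul_of_nonneg_left hlY (Nat.cast_nonneg _)
    have hd : (X : ℝ) / N * R = (C₁ * ((X : ℝ) / N) * (C₂ * (12 * ℓ ^ 4) *
        (Real.log X) ^ (1 / 2 : ℝ))) / (Real.log X / 3) := by
      rw [hR]
      field_simp
      ring
    rw [hd, le_div_iff₀ (by positivity)]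
    exact hc
  -- the sum over the small parts
  set B := (SS X).filter fun S => S.card ≤ k ∧ ¬ Nd (sm z S) (la z S) with hB
  set D := (range (z + 1)).filter fun p => p.Prime with hD
  set W := D.powerset.filter fun S => S.card ≤ k with hW
  have hmaps : ∀ S ∈ B, sm z S ∈ W := by
    intro S hS
    rw [hB, mem_filter, SS, mem_filter, mem_powerset] at hS
    obtain ⟨⟨k1, ⟨k2, -⟩, k3⟩, k4, k5⟩ := hS
    rw [hW, mem_filter, mem_powerset]
    refine ⟨fun p hp => ?_, (card_le_card (filter_subset _ _)).trans k4⟩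
    obtain ⟨l1, l2⟩ := mem_filter.1 hp
    rw [hD, mem_filter, mem_range]
    exact ⟨by omega, (k2 p l1).1⟩
  have hcard : (B.card : ℝ) ≤
      ∑ S₀ ∈ W, 4 * 2 ^ S₀.card * ((X : ℝ) / ((∏ p ∈ S₀, p : ℕ) : ℝ) * R) := by
    rw [card_eq_sum_card_fiberwise (f := fun S => sm z S) (t := W) (fun S hS => hmaps S hS)]
    push_cast
    refine sum_le_sum fun S₀ hS₀ => ?_
    rw [hW, mem_filter, mem_powerset] at hS₀
    have hpr : ∀ u ∈ S₀, u.Prime := fun u hu => (mem_filter.1 (hS₀.1 hu)).2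
    have hle : ∀ u ∈ S₀, u ≤ z := fun u hu => by
      have := mem_range.1 (mem_filter.1 (hS₀.1 hu)).1
      omega
    have e1 : (B.filter fun S => sm z S = S₀).card ≤
        ((SS X).filter fun S => ¬ Nd (sm z S) (la z S) ∧ sm z S = S₀).card := by
      refine card_le_card fun S hS => ?_
      rw [mem_filter, hB, mem_filter] at hS
      rw [mem_filter]
      exact ⟨hS.1.1, hS.1.2.2, hS.2⟩
    have e2 := e1.trans (fiber X z hpr)
    have e3 : ((B.filter fun S => sm z S = S₀).card : ℝ) ≤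
        ∑ t ∈ S₀.powerset ×ˢ (univ : Finset (ZMod 2 × ZMod 2)),
          (X : ℝ) / ((∏ p ∈ S₀, p : ℕ) : ℝ) * R := by
      refine le_trans ((Nat.cast_le (α := ℝ)).2 e2) ?_
      rw [Nat.cast_sum]
      refine sum_le_sum fun t htS => ?_
      split_ifs with ht
      · exact key S₀ hpr hle hS₀.2 t.1 (mem_powerset.1 (mem_product.1 htS).1) _ _ ht.1 ht.2
      · rw [Nat.cast_zero]
        exact mul_nonneg (div_nonneg (Nat.cast_nonneg _) (by positivity)) hR0
    refine e3.trans (le_of_eq ?_)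
    have h4 : (univ : Finset (ZMod 2 × ZMod 2)).card = 4 := by decide
    rw [sum_const, card_product, card_powerset, h4, nsmul_eq_mul]
    push_cast
    ring
  have hsum : ∑ S₀ ∈ W, 4 * 2 ^ S₀.card * ((X : ℝ) / ((∏ p ∈ S₀, p : ℕ) : ℝ) * R) ≤
      4 * X * R * Real.exp (2 * Pm z) := by
    have e1 : ∀ S₀ ∈ W, 4 * 2 ^ S₀.card * ((X : ℝ) / ((∏ p ∈ S₀, p : ℕ) : ℝ) * R) =
        4 * X * R * ∏ p ∈ S₀, (2 / (p : ℝ)) := by
      intro S₀ _
      rw [prod_div_distrib, prod_const]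
      push_cast
      ring
    rw [sum_congr rfl e1, ← mul_sum]
    have h2XR : 0 ≤ 4 * (X : ℝ) * R := by positivity
    refine mul_le_mul_of_nonneg_left ?_ h2XR
    calc ∑ S₀ ∈ W, ∏ p ∈ S₀, (2 / (p : ℝ)) ≤ ∑ S₀ ∈ D.powerset, ∏ p ∈ S₀, (2 / (p : ℝ)) := by
          refine sum_le_sum_of_subset_of_nonneg (filter_subset _ _) fun S _ _ => ?_
          exact prod_nonneg fun _ _ => by positivity
      _ = ∏ p ∈ D, (1 + 2 / (p : ℝ)) := by rw [prod_one_add]
      _ ≤ ∏ p ∈ D, Real.exp (2 / (p : ℝ)) := by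
          refine prod_le_prod (fun _ _ => by positivity) fun p _ => ?_
          rw [add_comm]
          exact Real.add_one_le_exp _
      _ = Real.exp (∑ p ∈ D, 2 / (p : ℝ)) := by rw [Real.exp_sum]
      _ ≤ Real.exp (2 * Pm z) := by
          apply Real.exp_le_exp.2
          unfold Pm
          rw [mul_sum]
          have e2 : ∀ p : ℕ, 2 / (p : ℝ) = 2 * (1 / p) := fun p => by ring
          simp_rw [e2]
          refine sum_le_sum_of_subset_of_nonneg ?_ fun _ _ _ => by positivity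
          intro p hp
          rw [hD, mem_filter, mem_range] at hp
          rw [mem_filter, mem_Icc]
          exact ⟨⟨hp.2.pos, by omega⟩, hp.2⟩
  have hexp : Real.exp (2 * Pm z) ≤ Real.exp (2 * C₃) * ℓ ^ 6 := by
    have e1 := h3 z hz3
    have e2 : Real.exp (2 * Pm z) ≤ Real.exp (2 * (Real.log (Real.log z) + C₃)) :=
      Real.exp_le_exp.2 (by linarith)
    refine e2.trans ?_
    have e3 : Real.exp (2 * (Real.log (Real.log z) + C₃)) = Real.exp (2 * C₃) * (Real.log z) ^ 2 := by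
      rw [mul_add, Real.exp_add, mul_comm]
      congr 1
      rw [show (2 : ℝ) * Real.log (Real.log z) = Real.log ((Real.log z) ^ 2) by
        rw [Real.log_pow]; push_cast; ring]
      exact Real.exp_log (by positivity)
    rw [e3]
    refine mul_le_mul_of_nonneg_left ?_ (Real.exp_pos _).le
    calc (Real.log z) ^ 2 ≤ (ℓ ^ 3) ^ 2 := pow_le_pow_left₀ hzlog0.le hzlog 2
      _ = ℓ ^ 6 := by ring
  have hXR : 0 ≤ 4 * (X : ℝ) * R := by positivity
  have hX0' : (0 : ℝ) ≤ X := Nat.cast_nonneg _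
  calc (B.card : ℝ) ≤ 4 * X * R * Real.exp (2 * Pm z) := hcard.trans hsum
    _ ≤ 4 * X * R * (Real.exp (2 * C₃) * ℓ ^ 6) :=
        mul_le_mul_of_nonneg_left hexp hXR
    _ = 144 * C₁ * C₂ * Real.exp (2 * C₃) * X * (ℓ ^ 10 *
          (Real.log X) ^ (1 / 2 : ℝ) / Real.log X) := by
        rw [hR]
        ring
    _ ≤ 144 * C₁ * C₂ * Real.exp (2 * C₃) * X * ((Real.log X) ^ (1 / 32 : ℝ) *
          (Real.log X) ^ (1 / 2 : ℝ) / Real.log X) := by
        gcongr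
    _ = 144 * C₁ * C₂ * Real.exp (2 * C₃) * X * (Real.log X) ^ (-(15 / 32) : ℝ) := by
        congr 1
        rw [← Real.rpow_add hlX]
        nth_rewrite 2 [← Real.rpow_one (Real.log X)]
        rw [← Real.rpow_sub hlX]
        congr 1
        norm_num
    _ ≤ 144 * C₁ * C₂ * Real.exp (2 * C₃) * X * (Real.log X) ^ (-(1 / 32) : ℝ) := by
        have : (Real.log X) ^ (-(15 / 32) : ℝ) ≤ (Real.log X) ^ (-(1 / 32) : ℝ) :=
          Real.rpow_le_rpow_of_exponent_le hlog1.le (by norm_num)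
        gcongr

end Pool.Agent.H757_X15.DD
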