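import Pool.Agent.H757_X15.StmD

/-! X15-D6: the count in a box (adapted from `Pool.Agent.Y657.CQ.BOX` of helper657). -/

set_option autoImplicit false

open scoped Classical

namespace Pool.Agent.H757_X15.DD

open Finset
open Pool.Agent.Y703.CQ (nr sg prs HB S_EQ)

namespace Box

theorem nr_self (p : ℕ) : nr p p = 0 := by
  unfold nr
  rw [if_pos]
  rw [ZMod.natCast_self]
  exact ⟨0, by simp⟩

theorem aa_one {p : ℕ} (hp : p % 4 = 1) : aa p = 0 := by
  unfold aa
  rw [if_neg (by omega)]

theorem aa_three {p : ℕ} (hp : p % 4 = 3) : aa p = 1 := by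
  unfold aa
  rw [if_pos hp]

theorem odd_cases {p : ℕ} (hp : p.Prime) (hp2 : p ≠ 2) : p % 4 = 1 ∨ p % 4 = 3 := by
  have h := hp.eq_two_or_odd
  omega

/-- the reciprocity law -/
theorem nr_rec {p q : ℕ} (hp : p.Prime) (hp2 : p ≠ 2) (hq : q.Prime) (hq2 : q ≠ 2) (hpq : p ≠ q) :
    nr p q = nr q p + aa p * aa q := by
  have : Fact p.Prime := ⟨hp⟩
  have : Fact q.Prime := ⟨hq⟩
  rcases odd_cases hp hp2 with hp4 | hp4
  · rw [aa_one hp4, zero_mul, add_zero]
    unfold nr
    have h := ZMod.exists_sq_eq_prime_iff_of_mod_four_eq_one (p := p) (q := q) hp4 hq2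
    by_cases h1 : IsSquare (q : ZMod p)
    · rw [if_pos h1, if_pos (h.1 h1)]
    · rw [if_neg h1, if_neg (fun h2 => h1 (h.2 h2))]
  · rcases odd_cases hq hq2 with hq4 | hq4
    · rw [aa_one hq4, mul_zero, add_zero]
      unfold nr
      have h := ZMod.exists_sq_eq_prime_iff_of_mod_four_eq_one (p := q) (q := p) hq4 hp2
      by_cases h1 : IsSquare (q : ZMod p)
      · rw [if_pos h1, if_pos (h.2 h1)]
      · rw [if_neg h1, if_neg (fun h2 => h1 (h.1 h2))]
    · rw [aa_three hp4, aa_three hq4]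
      unfold nr
      have h := ZMod.exists_sq_eq_prime_iff_of_mod_four_eq_three (p := p) (q := q) hp4 hq4 hpq
      by_cases h1 : IsSquare (q : ZMod p)
      · rw [if_pos h1, if_neg (h.1 h1)]
        decide
      · rw [if_neg h1]
        by_cases h2 : IsSquare (p : ZMod q)
        · rw [if_pos h2]; decide
        · exact absurd (h.2 h2) h1

/-- the product of odd numbers modulo `4` -/
theorem prod_mod (S : Finset ℕ) (hS : ∀ p ∈ S, p % 4 = 1 ∨ p % 4 = 3) :
    ((∏ p ∈ S, p) % 4 = 1 ∧ ∑ p ∈ S, aa p = 0) ∨ ((∏ p ∈ S, p) % 4 = 3 ∧ ∑ p ∈ S, aa p = 1) := by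
  induction S using Finset.induction_on with
  | empty => left; simp
  | insert a S ha ih =>
    have ih' := ih fun p hp => hS p (Finset.mem_insert_of_mem hp)
    rw [Finset.prod_insert ha, Finset.sum_insert ha, Nat.mul_mod]
    rcases hS a (Finset.mem_insert_self a S) with h | h
    · rw [aa_one h, h, zero_add]
      rcases ih' with ⟨h1, h2⟩ | ⟨h1, h2⟩
      · left; rw [h1]; exact ⟨rfl, h2⟩
      · right; rw [h1]; exact ⟨rfl, h2⟩
    · rw [aa_three h, h]
      rcases ih' with ⟨h1, h2⟩ | ⟨h1, h2⟩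
      · right; rw [h1, h2]; exact ⟨rfl, by decide⟩
      · left; rw [h1, h2]; exact ⟨rfl, by decide⟩

theorem sum_aa {S : Finset ℕ} (hS : Cl S) : ∑ p ∈ S, aa p = 0 := by
  obtain ⟨h1, h2⟩ := hS
  rcases prod_mod S fun p hp => odd_cases (h1 p hp).1 (h1 p hp).2 with h | h
  · exact h.2
  · exfalso
    rcases h2 with h3 | h3 <;> omega

/-- the type of the labels -/
abbrev Lb (S₀ : Finset ℕ) : Type := S₀ → ZMod 2

/-- the label of a prime with respect to the small primes -/
noncomputable def lb (S₀ : Finset ℕ) (x : ℕ) : Lb S₀ := fun u => nr x u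

/-- the good labels -/
def LN {ι : Type} (S₀ : Finset ℕ) (g h : ι → ZMod 2) (β : ι → Lb S₀) : Prop :=
  ∀ (w : S₀ → ZMod 2) (t s : ZMod 2), ((∃ u, w u ≠ 0) ∨ t ≠ 0 ∨ s ≠ 0) →
    ∃ i, ∑ u, w u * β i u + t * g i + s * h i ≠ 0

section one
variable {ι : Type} [Fintype ι] [LinearOrder ι] {S₀ : Finset ℕ} {p : ι → ℕ}

/-- extension by zero -/
noncomputable def ez0 {S₀ : Finset ℕ} (v : S₀ → ZMod 2) (n : ℕ) : ZMod 2 :=
  if h : n ∈ S₀ then v ⟨n, h⟩ else 0

theorem ez0_coe {S₀ : Finset ℕ} (v : S₀ → ZMod 2) (u : S₀) : ez0 v u = v u := by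
  unfold ez0
  rw [dif_pos u.2]

omit [LinearOrder ι] in
theorem nd_iff : Nd S₀ (univ.image p) ↔
    LN S₀ (fun i => aa (p i)) (fun i => bb (p i)) (fun i => lb S₀ (p i)) := by
  unfold Nd LN
  constructor
  · intro h w t s hw
    obtain ⟨x, hx, hx2⟩ := h (ez0 w) t s (by
      rcases hw with ⟨u, hu⟩ | hw
      · exact Or.inl ⟨u, u.2, by rw [ez0_coe]; exact hu⟩
      · exact Or.inr hw)
    rw [Finset.mem_image] at hx
    obtain ⟨i, -, rfl⟩ := hx
    refine ⟨i, ?_⟩
    rw [← Finset.sum_coe_sort S₀] at hx2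
    simp only [ez0_coe] at hx2
    exact hx2
  · intro h w t s hw
    obtain ⟨i, hi⟩ := h (fun u => w u) t s (by
      rcases hw with ⟨u, hu, hu2⟩ | hw
      · exact Or.inl ⟨⟨u, hu⟩, hu2⟩
      · exact Or.inr hw)
    refine ⟨p i, Finset.mem_image_of_mem _ (Finset.mem_univ _), ?_⟩
    rw [← Finset.sum_coe_sort S₀]
    exact hi

omit [LinearOrder ι] in
theorem sum_un (hp : Function.Injective p) (hd : ∀ i, p i ∉ S₀) (f : ℕ → ZMod 2) :
    ∑ x ∈ S₀ ∪ univ.image p, f x = ∑ u : S₀, f u + ∑ l, f (p l) := by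
  rw [Finset.sum_union, Finset.sum_image (fun a _ b _ h => hp h), ← Finset.sum_coe_sort S₀]
  rw [Finset.disjoint_left]
  intro x hx hx'
  rw [Finset.mem_image] at hx'
  obtain ⟨i, -, rfl⟩ := hx'
  exact hd i hx

theorem rec_eq (hp : Function.Injective p) (hpr : ∀ i, (p i).Prime ∧ p i ≠ 2) (k l : ι) :
    rec (fun i => aa (p i)) (fun e : prs (univ : Finset ι) => nr (p e.1.1) (p e.1.2)) k l =
      nr (p k) (p l) := by
  unfold rec Pool.Agent.Y703.CQ.ext
  have hmem : ∀ a b : ι, (a, b) ∈ prs (univ : Finset ι) ↔ a < b := by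
    intro a b
    unfold prs
    simp only [Finset.mem_filter, Finset.mem_univ, true_and, forall_true_left]
    constructor
    · exact fun h => h.2
    · exact fun h => ⟨ne_of_gt h, h⟩
  rcases lt_trichotomy k l with h | h | h
  · rw [dif_pos ((hmem k l).2 h), if_neg (not_lt.2 h.le), add_zero]
  · subst h
    rw [dif_neg (fun h => lt_irrefl _ ((hmem k k).1 h)),
      dif_neg (fun h => lt_irrefl _ ((hmem k k).1 h.1)), if_neg (lt_irrefl _), add_zero, nr_self]
  · rw [dif_neg (fun h' => lt_asymm h ((hmem k l).1 h')),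
      dif_pos ⟨(hmem l k).2 h, Finset.mem_univ _⟩, if_pos h]
    have hne : p k ≠ p l := fun h' => (ne_of_gt h) (hp h')
    exact (nr_rec (hpr k).1 (hpr k).2 (hpr l).1 (hpr l).2 hne).symm

theorem gd_iff (hp : Function.Injective p) (hpr : ∀ i, (p i).Prime ∧ p i ≠ 2)
    (hS₀ : ∀ u ∈ S₀, u.Prime ∧ u ≠ 2) (hd : ∀ i, p i ∉ S₀) :
    Gd (S₀ ∪ univ.image p) ↔ GdA (fun u v : S₀ => nr u v) (fun k (u : S₀) => nr (p k) u)
      (fun u : S₀ => aa u) (fun u : S₀ => bb u) (fun k => aa (p k)) (fun k => bb (p k))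
      (rec (fun i => aa (p i)) fun e : prs (univ : Finset ι) => nr (p e.1.1) (p e.1.2)) := by
  have hur : ∀ (u : S₀) (l : ι), nr u (p l) = nr (p l) u + aa u * aa (p l) := by
    intro u l
    exact nr_rec (hS₀ u u.2).1 (hS₀ u u.2).2 (hpr l).1 (hpr l).2 fun h => hd l (h ▸ u.2)
  have hsol : ∀ x : ℕ → ZMod 2, Sol (S₀ ∪ univ.image p) x ↔
      (∀ u : S₀, ∑ v : S₀, nr u v * (x v + x u) +
        ∑ l, (nr (p l) u + aa u * aa (p l)) * (x (p l) + x u) + aa u * x u = 0) ∧
      (∀ k : ι, ∑ u : S₀, nr (p k) u * (x u + x (p k)) +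
        ∑ l, rec (fun i => aa (p i))
          (fun e : prs (univ : Finset ι) => nr (p e.1.1) (p e.1.2)) k l *
          (x (p l) + x (p k)) + aa (p k) * x (p k) = 0) ∧
      ∑ u : S₀, bb u * x u + ∑ l, bb (p l) * x (p l) = 0 := by
    intro x
    unfold Sol
    rw [sum_un hp hd]
    simp only [rec_eq hp hpr, ← hur]
    constructor
    · rintro ⟨h, h'⟩
      refine ⟨fun u => ?_, fun k => ?_, h'⟩
      · have := h u (Finset.mem_union_left _ u.2)
        rw [sum_un hp hd] at this
        exact this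
      · have := h (p k) (Finset.mem_union_right _ (Finset.mem_image_of_mem _ (Finset.mem_univ _)))
        rw [sum_un hp hd] at this
        exact this
    · rintro ⟨h1, h2, h3⟩
      refine ⟨fun y hy => ?_, h3⟩
      rw [sum_un hp hd]
      rw [Finset.mem_union, Finset.mem_image] at hy
      rcases hy with hy | ⟨k, -, rfl⟩
      · exact h1 ⟨y, hy⟩
      · exact h2 k
  unfold Gd GdA
  constructor
  · intro h c d h1 h2 h3
    set c' : ℕ → ZMod 2 := fun n => if h : n ∈ S₀ then c ⟨n, h⟩ else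
      if h : ∃ l, p l = n then d h.choose else 0 with hc'
    have e1 : ∀ u : S₀, c' u = c u := by
      intro u
      simp only [hc']
      rw [dif_pos u.2]
    have e2 : ∀ l, c' (p l) = d l := by
      intro l
      have hex : ∃ l', p l' = p l := ⟨l, rfl⟩
      simp only [hc']
      rw [dif_neg (hd l), dif_pos hex]
      exact congrArg d (hp hex.choose_spec)
    have hs : Sol (S₀ ∪ univ.image p) c' := by
      rw [hsol]
      simp only [e1, e2]
      exact ⟨h1, h2, h3⟩
    have h4 := h c' hs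
    refine ⟨fun u => ?_, fun l => ?_⟩
    · rw [← e1]
      exact h4 _ (Finset.mem_union_left _ u.2)
    · rw [← e2]
      exact h4 _ (Finset.mem_union_right _ (Finset.mem_image_of_mem _ (Finset.mem_univ _)))
  · intro h x hx
    rw [hsol] at hx
    obtain ⟨ht1, ht2⟩ := h (fun u => x u) (fun l => x (p l)) hx.1 hx.2.1 hx.2.2
    intro y hy
    rw [Finset.mem_union, Finset.mem_image] at hy
    rcases hy with hy | ⟨k, -, rfl⟩
    · exact ht1 ⟨y, hy⟩
    · exact ht2 k

end one

theorem HB_sub {ι : Type} {J1 : Finset ι} {C : ι → Finset ℕ} {X : ι → ℕ} {κ : ℝ}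
    (h : HB J1 C X κ) (P : ι → ℕ → Prop) [∀ i, DecidablePred (P i)] :
    HB J1 (fun i => (C i).filter (P i)) X κ := by
  intro i l hil hi c d hc hd
  have h1 := h i l hil hi (fun x => if P i x then c x else 0) (fun y => if P l y then d y else 0)
    (fun x => by
      split_ifs
      · exact hc x
      · simp) (fun y => by
      split_ifs
      · exact hd y
      · simp)
  refine (le_of_eq ?_).trans h1
  congr 1
  rw [Finset.sum_filter]
  refine Finset.sum_congr rfl fun x _ => ?_
  by_cases hx : P i x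
  · rw [if_pos hx, Finset.sum_filter]
    refine Finset.sum_congr rfl fun y _ => ?_
    by_cases hy : P l y
    · rw [if_pos hy, if_pos hx, if_pos hy]
    · rw [if_neg hy, if_neg hy, mul_zero, zero_mul]
  · rw [if_neg hx]
    symm
    refine Finset.sum_eq_zero fun y _ => ?_
    rw [if_neg hx, zero_mul, zero_mul]

end Box

open Box

/-- **The count in a box.** -/
theorem t_BOX : S_BOX := by
  intro hEQ hLA ε hε
  obtain ⟨V, hV⟩ := hLA ε hε
  refine ⟨V, ?_⟩
  intro ι _ _ C X κ S₀ hκ hCX hHB hS₀ hC hmod hdis hcl hcard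
  set R : ℝ := 2 ^ (prs (univ : Finset ι)).card * (κ * ∏ j, (X j : ℝ)) with hR
  have hR0 : 0 ≤ R := mul_nonneg (by positivity)
    (mul_nonneg hκ (Finset.prod_nonneg fun j _ => by positivity))
  have hRR : R ≤ 2 ^ ((2 * S₀.card + 1) * Fintype.card ι + (prs (univ : Finset ι)).card) *
      (κ * ∏ j, (X j : ℝ)) := by
    rw [hR]
    refine mul_le_mul_of_nonneg_right ?_
      (mul_nonneg hκ (Finset.prod_nonneg fun j _ => by positivity))
    exact pow_le_pow_right₀ (by norm_num) (by omega)
  by_cases hne : (Fintype.piFinset C) = ∅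
  · rw [hne]
    simpa using hR0.trans hRR
  obtain ⟨q₀, hq₀⟩ := Finset.nonempty_iff_ne_empty.2 hne
  -- facts on tuples
  have hinj : ∀ p ∈ Fintype.piFinset C, Function.Injective p := by
    intro p hp i j hij
    rw [Fintype.mem_piFinset] at hp
    by_contra hne
    have h1 := Finset.disjoint_left.1 (hdis i j hne) (hp i)
    rw [hij] at h1
    exact h1 (hp j)
  have hd : ∀ p ∈ Fintype.piFinset C, ∀ i, p i ∉ S₀ := by
    intro p hp i
    rw [Fintype.mem_piFinset] at hp
    exact (hC i _ (hp i)).2.2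
  have hpr : ∀ p ∈ Fintype.piFinset C, ∀ i, (p i).Prime ∧ p i ≠ 2 := by
    intro p hp i
    rw [Fintype.mem_piFinset] at hp
    exact ⟨(hC i _ (hp i)).1, (hC i _ (hp i)).2.1⟩
  set g : ι → ZMod 2 := fun i => aa (q₀ i) with hg
  set h' : ι → ZMod 2 := fun i => bb (q₀ i) with hh'
  have hga : ∀ p ∈ Fintype.piFinset C, (fun i => aa (p i)) = g := by
    intro p hp
    funext i
    have h60 : p i % 60 = q₀ i % 60 :=
      hmod i _ (Fintype.mem_piFinset.1 hp i) _ (Fintype.mem_piFinset.1 hq₀ i)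
    simp only [hg, aa]
    have : p i % 4 = q₀ i % 4 := by omega
    rw [this]
  have hhb : ∀ p ∈ Fintype.piFinset C, (fun i => bb (p i)) = h' := by
    intro p hp
    funext i
    have h60 : p i % 60 = q₀ i % 60 :=
      hmod i _ (Fintype.mem_piFinset.1 hp i) _ (Fintype.mem_piFinset.1 hq₀ i)
    simp only [hh', bb]
    have : p i % 5 = q₀ i % 5 := by omega
    rw [this]
  have hgc : (univ.filter fun i => ∀ p ∈ C i, p % 4 = 3).card =
      (univ.filter fun k => g k = 1).card := by
    congr 1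
    refine Finset.filter_congr fun i _ => ?_
    have hi := Fintype.mem_piFinset.1 hq₀ i
    constructor
    · intro h
      exact aa_three (h _ hi)
    · intro h p hp
      have h60 : p % 60 = q₀ i % 60 := hmod i _ hp _ hi
      have h43 : q₀ i % 4 = 3 := by
        by_contra h43
        simp only [hg, aa] at h
        rw [if_neg h43] at h
        exact zero_ne_one h
      omega
  -- the part with given labels
  have h1 : ∀ β : ι → Lb S₀, LN S₀ g h' β →
      |(((Fintype.piFinset C).filter fun p => (fun i => lb S₀ (p i)) = β ∧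
          Gd (S₀ ∪ univ.image p)).card : ℝ) -
        c1 * (((Fintype.piFinset C).filter fun p => (fun i => lb S₀ (p i)) = β).card : ℝ)| ≤
      ε * (((Fintype.piFinset C).filter fun p => (fun i => lb S₀ (p i)) = β).card : ℝ) + R := by
    intro β hβ
    set C' : ι → Finset ℕ := fun i => (C i).filter fun q => lb S₀ q = β i with hC'
    have hpi : (Fintype.piFinset C).filter (fun p => (fun i => lb S₀ (p i)) = β) =
        Fintype.piFinset C' := by
      ext p
      simp only [Finset.mem_filter, Fintype.mem_piFinset, hC']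
      constructor
      · rintro ⟨h2, h3⟩ i
        exact ⟨h2 i, congrFun h3 i⟩
      · intro h2
        exact ⟨fun i => (h2 i).1, funext fun i => (h2 i).2⟩
    have h2 := hV S₀ ι (fun u v => nr u v) (fun k u => β k u) (fun u => aa u) (fun u => bb u) g h'
      (by
        intro u v huv
        exact nr_rec (hS₀ u u.2).1 (hS₀ u u.2).2 (hS₀ v v.2).1 (hS₀ v v.2).2
          fun h => huv (Subtype.ext h))
      (by
        have h3 := sum_aa (hcl q₀ hq₀)
        rw [sum_un (hinj q₀ hq₀) (hd q₀ hq₀)] at h3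
        exact h3)
      (by
        intro w t s hw
        exact hβ w t s hw)
      (by
        rw [Fintype.card_coe, ← hgc]
        exact hcard)
    set Q : (prs (univ : Finset ι) → ZMod 2) → Prop := fun α => GdA (fun u v : S₀ => nr u v)
      (fun k (u : S₀) => β k u) (fun u : S₀ => aa u) (fun u : S₀ => bb u) g h' (rec g α) with hQ
    have h3 := hEQ ι univ C' X κ hκ
      (fun i => (Finset.card_le_card (Finset.filter_subset _ _)).trans (hCX i))
      (HB_sub hHB fun i q => lb S₀ q = β i) Q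
    have h4 : ((Fintype.piFinset C).filter fun p => (fun i => lb S₀ (p i)) = β ∧
        Gd (S₀ ∪ univ.image p)) = ((Fintype.piFinset C').filter fun p =>
          Q fun e => nr (p e.1.1) (p e.1.2)) := by
      rw [← hpi, Finset.filter_filter]
      refine Finset.filter_congr fun p hp => ?_
      refine and_congr_right fun hl => ?_
      rw [gd_iff (hinj p hp) (hpr p hp) hS₀ (hd p hp), hga p hp, hhb p hp]
      subst hl
      exact Iff.rfl
    have h5 : (((Fintype.piFinset C').card : ℕ) : ℝ) = ∏ j, ((C' j).card : ℝ) := by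
      rw [Fintype.card_piFinset]
      push_cast
      rfl
    rw [h4, hpi, h5]
    set n : ℝ := (((Fintype.piFinset C').filter fun p =>
          Q fun e => nr (p e.1.1) (p e.1.2)).card : ℝ) with hn
    set q : ℝ := ((univ.filter Q).card : ℝ) / 2 ^ (prs (univ : Finset ι)).card with hq
    set P : ℝ := ∏ j, ((C' j).card : ℝ) with hP
    have hP0 : 0 ≤ P := Finset.prod_nonneg fun j _ => by positivity
    have h6 : |n - c1 * P| ≤ |n - q * P| + |q - c1| * P := by
      have h7 : n - c1 * P = (n - q * P) + (q - c1) * P := by ring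
      have h8 : |(q - c1) * P| = |q - c1| * P := by rw [abs_mul, abs_of_nonneg hP0]
      rw [h7, ← h8]
      exact abs_add_le _ _
    have h7 : |q - c1| * P ≤ ε * P := mul_le_mul_of_nonneg_right h2 hP0
    have h8 : |n - q * P| ≤ R := h3
    linarith
  -- sum over the labels
  set LL := univ.filter (fun β : ι → Lb S₀ => LN S₀ g h' β) with hLL
  have hfib : ∀ T : (ι → ℕ) → Prop,
      (((Fintype.piFinset C).filter fun p => Nd S₀ (univ.image p) ∧ T p).card : ℝ) =
      ∑ β ∈ LL, (((Fintype.piFinset C).filter fun p =>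
        (fun i => lb S₀ (p i)) = β ∧ T p).card : ℝ) := by
    intro T
    rw [Finset.card_eq_sum_card_fiberwise (f := fun (p : ι → ℕ) (i : ι) => lb S₀ (p i))
      (t := LL) (by
        intro p hp
        rw [Finset.mem_coe, Finset.mem_filter] at hp
        rw [Finset.mem_coe, hLL, Finset.mem_filter]
        have h3 := nd_iff.1 hp.2.1
        rw [hga p hp.1, hhb p hp.1] at h3
        exact ⟨Finset.mem_univ _, h3⟩)]
    push_cast
    refine Finset.sum_congr rfl fun β hβ => ?_
    rw [hLL, Finset.mem_filter] at hβ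
    congr 2
    ext p
    simp only [Finset.mem_filter]
    constructor
    · rintro ⟨⟨h3, h4, h4'⟩, h5⟩
      exact ⟨h3, h5, h4'⟩
    · rintro ⟨h3, h4, h5⟩
      refine ⟨⟨h3, ?_, h5⟩, h4⟩
      rw [nd_iff, h4, hga p h3, hhb p h3]
      exact hβ.2
  have hf1 := hfib fun p => Gd (S₀ ∪ univ.image p)
  have hf2 := hfib fun _ => True
  simp only [and_true] at hf2
  rw [hf1, hf2, Finset.mul_sum, ← Finset.sum_sub_distrib]
  refine (Finset.abs_sum_le_sum_abs _ _).trans ?_
  refine (Finset.sum_le_sum fun β hβ => h1 β (Finset.mem_filter.1 hβ).2).trans ?_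
  rw [Finset.sum_add_distrib, ← Finset.mul_sum, Finset.sum_const, nsmul_eq_mul]
  have h5 : ((LL.card : ℕ) : ℝ) ≤ 2 ^ ((2 * S₀.card + 1) * Fintype.card ι) := by
    have h6 : LL.card ≤ Fintype.card (ι → Lb S₀) := Finset.card_le_univ _
    rw [Fintype.card_fun, Fintype.card_fun, ZMod.card, Fintype.card_coe, ← pow_mul] at h6
    have h7 : (2 : ℕ) ^ (S₀.card * Fintype.card ι) ≤
        2 ^ ((2 * S₀.card + 1) * Fintype.card ι) := by
      refine Nat.pow_le_pow_right (by norm_num) (Nat.mul_le_mul_right _ (by omega))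
    exact_mod_cast h6.trans h7
  have h6 := mul_le_mul_of_nonneg_right h5 hR0
  rw [pow_add, mul_assoc]
  linarith

end Pool.Agent.H757_X15.DD
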